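import Pool.Agent.MP_e70dc0_co.H56.Path

set_option autoImplicit false

namespace Pool.Agent.Results.MP_e70dc0_co.BoundedCrossing

/-- no three of the first `n` points are collinear and at most `K` of them lie on a circle -/
def GenPos (n K : ℕ) (p : ℕ → EuclideanSpace ℝ (Fin 2)) : Prop :=
  (∀ i < n, ∀ j < n, ∀ k < n, i ≠ j → i ≠ k → j ≠ k → ¬ Collinear ℝ {p i, p j, p k}) ∧
    ∀ (c : EuclideanSpace ℝ (Fin 2)) (r : ℝ), {i | i < n ∧ dist (p i) c = r}.ncard ≤ K

/-- every circle centred at one of the `p i` separates at most `s` consecutive pairs of the `q j` -/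
def CrossLe (n s : ℕ) (p q : ℕ → EuclideanSpace ℝ (Fin 2)) : Prop :=
  ∀ i < n, ∀ r : ℝ,
    {j | j + 1 < n ∧ (dist (p i) (q j) - r) * (dist (p i) (q (j + 1)) - r) < 0}.ncard ≤ s

theorem result (s K C : ℕ) :
    ∃ n0 : ℕ, ∀ n, n0 ≤ n → ∀ p q : ℕ → EuclideanSpace ℝ (Fin 2),
      GenPos n K p → GenPos n K q → CrossLe n s p q → CrossLe n s q p →
      C * n < {d : ℝ | ∃ i < n, ∃ j < n, dist (p i) (q j) = d}.ncard :=
  Pool.Agent.MP_e70dc0_co.H56.path_euclid s K C

end Pool.Agent.Results.MP_e70dc0_co.BoundedCrossing
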