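import Pool.Agent.MP_e70dc0_co.H56.Convex

set_option autoImplicit false

open Pool.Agent.MP_e70dc0_co.H56 in
theorem Pool.Agent.Results.MP_e70dc0_co.ConvexPosition.result :
    ∃ C : ℕ, ∀ (P : Finset (EuclideanSpace ℝ (Fin 2))) (K : ℕ), 2 ≤ P.card →
      ConvexIndependent ℝ (fun x : {x // x ∈ P} => (x : EuclideanSpace ℝ (Fin 2))) →
      (∀ (c : EuclideanSpace ℝ (Fin 2)) (r : ℝ), {x | x ∈ P ∧ dist x c = r}.ncard ≤ K) →
      P.card ^ 225 ≤ C * K * {d : ℝ | ∃ x ∈ P, ∃ y ∈ P, x ≠ y ∧ dist x y = d}.ncard ^ 224 := by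
  refine ⟨63 ^ 225 * (72 * 48 ^ 14 * 5 ^ 210), fun P K h2 hc hK => ?_⟩
  have hcard : (P.image toC).card = P.card := Finset.card_image_of_injective _ toC.injective
  have := convex_main (exp_image P hc) (circ_image P K hK) (hcard ▸ h2)
  rwa [hcard, dists_image] at this
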