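import Pool.Agent.MP_e70dc0_co.T53.Main

theorem Pool.Agent.Results.MP_e70dc0_co.PinnedThird.result :
    ∃ c : ℝ, 0 < c ∧ ∃ n₀ : ℕ, ∀ P : Finset ℂ, n₀ ≤ P.card →
      (∀ x ∈ P, ∀ y ∈ P, ∀ z ∈ P, x ≠ y → x ≠ z → y ≠ z → ¬Collinear ℝ ({x, y, z} : Set ℂ)) →
        (1 / 3 + c) * (P.card : ℝ) ^ 2 < ∑ a ∈ P, (((P.erase a).image (dist a)).card : ℝ) :=
  Pool.Agent.T53.top
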