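import Pool.Agent.MP_e70dc0_co.H36.Fam

set_option autoImplicit false

open Pool.Agent.MP_e70dc0_co.H36 in
theorem Pool.Agent.Results.MP_e70dc0_co.RotationGroup.result (ρ d K C : ℕ) :
    ∃ n0 : ℕ, ∀ (Γ : Subgroup ℂˣ) (F : IntermediateField ℚ ℂ) (P : Finset ℂ),
      Module.rank ℤ (Additive Γ) ≤ ρ → FiniteDimensional ℚ F → Module.finrank ℚ F ≤ d →
      (∀ θ ∈ Γ, ‖(θ : ℂ)‖ = 1 → IsIntegral ℤ (θ : ℂ) → (θ : ℂ) ∈ F) →
      n0 ≤ P.card → ThreeAPFree (P : Set ℂ) →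
      (∀ (c : ℂ) (r : ℝ), {z | z ∈ P ∧ dist z c = r}.ncard ≤ K) →
      (∀ a ∈ P, ∀ b ∈ P, ∀ a' ∈ P, ∀ b' ∈ P, a ≠ b → dist a b = dist a' b' →
        ∃ θ ∈ Γ, a - b = (θ : ℂ) * (a' - b')) →
      C * P.card < {s : ℝ | ∃ a ∈ P, ∃ b ∈ P, a ≠ b ∧ dist a b = s}.ncard := by
  obtain ⟨n0, h⟩ := finite_rank ρ d K (C + 1)
  refine ⟨n0 + 1, fun Γ F P h0 h1 h2 h3 h4 h5 h6 h7 => ?_⟩
  have h8 := h Γ F P h0 h1 h2 h3 (by omega) h5 (fun c r => by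
    rw [← Set.ncard_coe_finset]
    convert h6 c r using 2
    ext z
    simp [dist_eq_norm]) (by simpa only [dist_eq_norm] using h7)
  have h9 : (Ds P : Set ℝ) ⊆ insert 0 {s : ℝ | ∃ a ∈ P, ∃ b ∈ P, a ≠ b ∧ dist a b = s} := by
    intro s hs
    obtain ⟨x, hx, rfl⟩ := Finset.mem_image.1 (Finset.mem_coe.1 hs)
    by_cases e : x.1 = x.2
    · exact Or.inl (by simp [e])
    · exact Or.inr ⟨x.1, (Finset.mem_product.1 hx).1, x.2, (Finset.mem_product.1 hx).2, e,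
        dist_eq_norm _ _⟩
  have h10 : {s : ℝ | ∃ a ∈ P, ∃ b ∈ P, a ≠ b ∧ dist a b = s}.Finite :=
    (Ds P).finite_toSet.subset (by
      rintro _ ⟨a, ha, b, hb, -, rfl⟩
      rw [dist_eq_norm]
      exact mem_Ds ha hb)
  have h11 := (Set.ncard_le_ncard h9 (h10.insert 0)).trans (Set.ncard_insert_le _ _)
  rw [Set.ncard_coe_finset] at h11
  rw [add_mul, one_mul] at h8
  omega
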